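import Pool.Agent.Lib_helper11.Cubic.Gen

set_option autoImplicit false

/-! From a long interval on the positive side to an annulus. -/

namespace Pool.Agent.Lib_helper11.Cubic

theorem pow_four_bound {D N : ℤ} (hD : 0 ≤ D) (hN : 40 * D ≤ N) :
    (N + 3 * D) ^ 4 ≤ 2 * N ^ 4 := by
  have h1 : 1600 * (N + 3 * D) ^ 2 ≤ 1849 * N ^ 2 := by nlinarith
  have h2 : (1600 * (N + 3 * D) ^ 2) ^ 2 ≤ (1849 * N ^ 2) ^ 2 :=
    pow_le_pow_left₀ (by positivity) h1 2
  have h3 : 0 ≤ N ^ 4 := by positivity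
  nlinarith

/-- If `be = 1` on `[N, 2 N^4]` then `be = 1` on a large annulus. -/
theorem annulus {A t : ℤ} (ht1 : 1 ≤ t) (ht2 : t ≤ 2)
    (adm : ∀ n : ℤ, ∃ p, t * p = n ^ 2 - (A + t) * n - 2 * t ^ 2)
    {D N : ℤ} (hD : D = |A| + 3) (hN : 40 * D ≤ N)
    (h : ∀ v, N ≤ v → v ≤ 2 * N ^ 4 → be A t v = 1) :
    (∀ k, N + D ≤ k → k ≤ (N + 2 * D) ^ 2 → be A t (A + k) = 1) ∧
    (∀ k, N + D ≤ k → k ≤ (N + 2 * D) ^ 2 → be A t (-k) = 1) := by
  have hA1 : A ≤ |A| := le_abs_self A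
  have hA2 : -|A| ≤ A := neg_abs_le A
  have hA0 : 0 ≤ |A| := abs_nonneg A
  have hD3 : 3 ≤ D := by omega
  have h4 := pow_four_bound (by omega : (0 : ℤ) ≤ D) hN
  have hX : (N + 2 * D) ^ 2 + 2 * D ≤ (N + 3 * D) ^ 2 := by nlinarith
  have hX2 : (N + 3 * D) ^ 2 ≤ (N + 3 * D) ^ 4 := by
    have : 1 ≤ (N + 3 * D) ^ 2 := by nlinarith
    nlinarith
  refine ⟨fun k hk1 hk2 => h _ (by omega) (by omega), fun k hk1 hk2 => ?_⟩
  obtain ⟨p, hp⟩ := adm (A + t + k)
  set n := A + t + k with hn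
  have hn1 : N ≤ n := by omega
  have hn2 : n + D ≤ (N + 3 * D) ^ 2 := by omega
  have hbn : be A t n = 1 := h n hn1 (by omega)
  have hlow : 2 * n ≤ t * p := by
    rw [hp]
    have h1 : 39 * D ≤ n - D := by omega
    have h2 : (A + t) * n ≤ D * n := mul_le_mul_of_nonneg_right (by omega) (by omega)
    have h3 : t ^ 2 ≤ 4 := by nlinarith
    nlinarith
  have hp0 : 0 ≤ p := by
    by_contra hneg
    push Not at hneg
    nlinarith
  have hpN : N ≤ p := by nlinarith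
  have hpU : p ≤ 2 * N ^ 4 := by
    have h1 : p ≤ t * p := by nlinarith
    have h2 : t * p ≤ n * (n + D) := by
      rw [hp]
      have h3 : -(A + t) * n ≤ D * n := mul_le_mul_of_nonneg_right (by omega) (by omega)
      nlinarith [sq_nonneg t]
    have h3 : n * (n + D) ≤ (N + 3 * D) ^ 2 * (N + 3 * D) ^ 2 :=
      mul_le_mul (by omega) hn2 (by omega) (by positivity)
    have h4' : (N + 3 * D) ^ 2 * (N + 3 * D) ^ 2 = (N + 3 * D) ^ 4 := by ring
    omega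
  have hbp := h p hpN hpU
  have hP := be_P (A := A) (by omega : t ≠ 0) hp
  rw [hbp, hbn, one_mul] at hP
  have : A + t - n = -k := by rw [hn]; ring
  rw [this] at hP
  exact hP.symm

end Pool.Agent.Lib_helper11.Cubic
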