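import Mathlib

set_option autoImplicit false

/-! The Liouville function at the values of the simplest cubics. -/

namespace Pool.Agent.Lib_helper11.Cubic

/-- The Liouville function extended to the integers: `λ(0) = 0` and, for `m ≠ 0`,
`λ(m) = (-1)^Ω(|m|)`, where `Ω` counts prime factors with multiplicity. -/
def liouville (m : ℤ) : ℤ :=
  if m = 0 then 0 else (-1) ^ (ArithmeticFunction.cardFactors m.natAbs)

theorem liouville_mul (x y : ℤ) : liouville (x * y) = liouville x * liouville y := by
  unfold liouville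
  by_cases hx : x = 0
  · simp [hx]
  by_cases hy : y = 0
  · simp [hy]
  rw [if_neg hx, if_neg hy, if_neg (mul_ne_zero hx hy), Int.natAbs_mul,
    ArithmeticFunction.cardFactors_mul (Int.natAbs_ne_zero.2 hx) (Int.natAbs_ne_zero.2 hy), pow_add]

theorem liouville_neg (x : ℤ) : liouville (-x) = liouville x := by
  unfold liouville
  simp

theorem liouville_one : liouville 1 = 1 := by
  simp [liouville]

theorem liouville_ne {x : ℤ} (hx : x ≠ 0) : liouville x = 1 ∨ liouville x = -1 := by
  unfold liouville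
  rw [if_neg hx]
  exact neg_one_pow_eq_or ℤ _

/-- the simplest cubic -/
def f (a n : ℤ) : ℤ := n ^ 3 - a * n ^ 2 - (a + 3) * n - 1

theorem f_ne (a n : ℤ) : f a n ≠ 0 := by
  intro h
  have h1 : f a n % 2 = 1 := by
    unfold f
    rcases Int.even_or_odd' n with ⟨k, rfl | rfl⟩
    · have : (2 * k) ^ 3 - a * (2 * k) ^ 2 - (a + 3) * (2 * k) - 1
          = 2 * (4 * k ^ 3 - 2 * a * k ^ 2 - (a + 3) * k - 1) + 1 := by ring
      omega
    · have : (2 * k + 1) ^ 3 - a * (2 * k + 1) ^ 2 - (a + 3) * (2 * k + 1) - 1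
          = 2 * (4 * k ^ 3 + 6 * k ^ 2 - 2 * a * k ^ 2 - 3 * a * k - a - 2) + 1 := by ring
      omega
  rw [h] at h1
  norm_num at h1

/-- the sign -/
def al (a n : ℤ) : ℤ := liouville (f a n)

theorem al_or (a n : ℤ) : al a n = 1 ∨ al a n = -1 := liouville_ne (f_ne a n)

theorem al_sq (a n : ℤ) : al a n * al a n = 1 := by
  rcases al_or a n with h | h <;> rw [h] <;> norm_num

theorem al_ne_one {a n : ℤ} (h : al a n ≠ 1) : al a n = -1 := (al_or a n).resolve_left h

theorem al_ne_neg {a n : ℤ} (h : al a n ≠ -1) : al a n = 1 := (al_or a n).resolve_right h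

/-- first identity -/
theorem al_P (a n : ℤ) : al a (n ^ 2 - (a + 1) * n - 2) = al a n * al a (a + 1 - n) := by
  unfold al
  rw [← liouville_mul, ← liouville_neg]
  congr 1
  unfold f
  ring

/-- second identity -/
theorem al_Q (a n : ℤ) : al a (-n ^ 2 + a * n + a + 2) = al a n * al a (a - n) := by
  unfold al
  rw [← liouville_mul]
  congr 1
  unfold f
  ring

theorem al_zero (a : ℤ) : al a 0 = 1 := by
  unfold al f
  norm_num
  exact (liouville_neg 1).trans liouville_one

theorem al_neg_one (a : ℤ) : al a (-1) = 1 := by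
  unfold al
  have : f a (-1) = 1 := by unfold f; ring
  rw [this, liouville_one]

theorem al_one (a : ℤ) : al a 1 = al a (-2) := by
  unfold al
  congr 1
  unfold f; ring

theorem al_a_one (a : ℤ) : al a (a + 1) = al a (-2) := by
  unfold al
  congr 1
  unfold f; ring

/-- reflection -/
theorem al_refl (a n : ℤ) : al a (-1 - n) = al (-3 - a) n := by
  unfold al
  rw [← liouville_neg]
  congr 1
  unfold f; ring

/-- the two identities, solved for one sign -/
theorem al_of_P {a n : ℤ} : al a (a + 1 - n) = al a (n ^ 2 - (a + 1) * n - 2) * al a n := by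
  rw [al_P, mul_comm (al a n), mul_assoc, al_sq, mul_one]

theorem al_of_Q {a n : ℤ} : al a (a - n) = al a (-n ^ 2 + a * n + a + 2) * al a n := by
  rw [al_Q, mul_comm (al a n), mul_assoc, al_sq, mul_one]

/-! ### Descent -/

/-- If `al = 1` on the annulus of radii in `[K, Z]`, where `Z` is large compared with `K`,
then it is `1` on the disc of radius `Z`. -/
theorem descent {a : ℤ} (ha : -1 ≤ a) {K Z : ℤ} (hK : 2 ≤ K) (hZ : K ^ 2 + (a + 2) * K ≤ Z)
    (hZa : (a + 2) ^ 2 ≤ Z)
    (hpos : ∀ k, K ≤ k → k ≤ Z → al a (a + k) = 1) (hneg : ∀ k, K ≤ k → k ≤ Z → al a (-k) = 1) :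
    ∀ n, -Z ≤ n → n ≤ a + Z → al a n = 1 := by
  -- going down to radius 3
  have hKZ : K ≤ Z := by nlinarith
  have step : ∀ j : ℕ, ∀ k : ℤ, k = K - j → 3 ≤ k → al a (-k) = 1 ∧ al a (a + k) = 1 := by
    intro j
    induction j using Nat.strong_induction_on with
    | _ j ih =>
      intro k hk h3
      rcases Nat.eq_zero_or_pos j with hj | hj
      · subst hj
        have : k = K := by simpa using hk
        subst this
        exact ⟨hneg k le_rfl hKZ, hpos k le_rfl hKZ⟩
      have hkK : k < K := by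
        have : (0 : ℤ) < j := by exact_mod_cast hj
        omega
      -- values outside the disc of radius k, up to Z
      have hout : ∀ l, k < l → l ≤ Z → al a (-l) = 1 ∧ al a (a + l) = 1 := by
        intro l hl hlZ
        by_cases hlK : K ≤ l
        · exact ⟨hneg l hlK hlZ, hpos l hlK hlZ⟩
        · push Not at hlK
          obtain ⟨i, hi⟩ : ∃ i : ℕ, (i : ℤ) = K - l := ⟨(K - l).toNat, by omega⟩
          exact ih i (by omega) l (by omega) (by omega)
      have h1 : al a (-k) = 1 := by
        have h2 := al_P a (-k)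
        have e1 : (-k) ^ 2 - (a + 1) * (-k) - 2 = a + (k ^ 2 + (a + 1) * k - 2 - a) := by ring
        have e2 : a + 1 - -k = a + (k + 1) := by ring
        rw [e1, e2, (hout (k + 1) (by omega) (by omega)).2, mul_one] at h2
        rw [← h2]
        refine (hout _ ?_ ?_).2
        · nlinarith
        · nlinarith
      refine ⟨h1, ?_⟩
      have h2 := al_Q a (-k)
      have e1 : -(-k) ^ 2 + a * (-k) + a + 2 = -(k ^ 2 + a * k - a - 2) := by ring
      have e2 : a - -k = a + k := by ring
      rw [e1, e2, h1, one_mul] at h2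
      rw [← h2]
      refine (hout _ ?_ ?_).1
      · nlinarith
      · nlinarith
  -- everything of radius at least 3
  have hout3 : ∀ l, 3 ≤ l → l ≤ Z → al a (-l) = 1 ∧ al a (a + l) = 1 := by
    intro l hl hlZ
    by_cases hlK : K ≤ l
    · exact ⟨hneg l hlK hlZ, hpos l hlK hlZ⟩
    · push Not at hlK
      exact step (K - l).toNat l (by omega) hl
  -- radius 2
  have hm2 : al a (-2) = 1 := by
    by_cases hK2 : K = 2
    · subst hK2; exact hneg 2 le_rfl hKZ
    have h2 := al_P a (-2)
    have e1 : (-2 : ℤ) ^ 2 - (a + 1) * (-2) - 2 = a + (a + 4) := by ring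
    have e2 : a + 1 - -2 = a + 3 := by ring
    have hZ3 : 3 ≤ Z := by omega
    have hZa : a + 4 ≤ Z := by nlinarith [hK, hZ, (by omega : 3 ≤ K)]
    rw [e1, e2, (hout3 3 le_rfl hZ3).2, mul_one, (hout3 (a + 4) (by omega) hZa).2] at h2
    exact h2.symm
  have ha1 : al a (a + 1) = 1 := by rw [al_a_one, hm2]
  have h1 : al a 1 = 1 := by rw [al_one, hm2]
  have ha2 : al a (a + 2) = 1 := by
    rcases (show a = -1 ∨ 0 ≤ a by omega) with h | h
    · subst h; exact h1
    · have h2 := al_Q a (-2)
      have e1 : -(-2 : ℤ) ^ 2 + a * (-2) + a + 2 = -(a + 2) := by ring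
      have e2 : a - -2 = a + 2 := by ring
      rw [e1, e2, hm2, one_mul] at h2
      rw [← h2]
      rcases (show a = 0 ∨ 1 ≤ a by omega) with h3 | h3
      · subst h3; exact hm2
      · exact (hout3 (a + 2) (by omega) (by nlinarith)).1
  have hout2 : ∀ l, 2 ≤ l → l ≤ Z → al a (-l) = 1 ∧ al a (a + l) = 1 := by
    intro l hl hlZ
    rcases (show l = 2 ∨ 3 ≤ l by omega) with h | h
    · subst h; exact ⟨hm2, ha2⟩
    · exact hout3 l h hlZ
  -- the inner region
  have hinner : ∀ n : ℕ, (n : ℤ) ≤ a → al a n = 1 := by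
    intro n
    induction n with
    | zero => intro _; exact al_zero a
    | succ n ih =>
      intro hn
      push_cast at hn ⊢
      have h2 := ih (by omega)
      have hn0 : (0 : ℤ) ≤ n := Int.natCast_nonneg n
      -- al n = al (a - n)
      have h3 := al_Q a n
      have e1 : -(n : ℤ) ^ 2 + a * n + a + 2 = a + (n * (a - n) + 2) := by ring
      have b1 : (n : ℤ) * (a - n) ≤ (n : ℤ) * (a - n) := le_rfl
      have hna : (0 : ℤ) ≤ n * (a - n) := mul_nonneg hn0 (by omega)
      have ha0 : (0 : ℤ) ≤ a := by omega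
      have hb : (n : ℤ) * (a - n) + 2 ≤ Z := by
        nlinarith [sq_nonneg (a - 2 * (n : ℤ)), mul_nonneg ha0 ha0]
      rw [e1, (hout2 _ (by omega) hb).2, h2, one_mul] at h3
      -- al (a - n) = al (n + 1)
      have h4 := al_P a (a - n)
      have e2 : (a - (n : ℤ)) ^ 2 - (a + 1) * (a - n) - 2 = -((a - n) * (n + 1) + 2) := by ring
      have e3 : a + 1 - (a - (n : ℤ)) = n + 1 := by ring
      have hna2 : (0 : ℤ) ≤ (a - n) * (n + 1) := mul_nonneg (by omega) (by omega)
      have hb2 : (a - (n : ℤ)) * (n + 1) + 2 ≤ Z := by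
        nlinarith [sq_nonneg (a - 1 - 2 * (n : ℤ)), mul_nonneg ha0 ha0]
      rw [e2, e3, (hout2 _ (by omega) hb2).1, ← h3, one_mul] at h4
      exact h4.symm
  intro n hn1 hn2
  rcases (show n ≤ -2 ∨ n = -1 ∨ (0 ≤ n ∧ n ≤ a) ∨ n = a + 1 ∨ a + 2 ≤ n by omega) with
    h | h | h | h | h
  · have := (hout2 (-n) (by omega) (by omega)).1
    simpa using this
  · rw [h]; exact al_neg_one a
  · obtain ⟨m, rfl⟩ := Int.eq_ofNat_of_zero_le h.1
    exact hinner m h.2
  · rw [h]; exact ha1
  · have := (hout2 (n - a) (by omega) (by omega)).2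
    simpa using this

end Pool.Agent.Lib_helper11.Cubic
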