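import Pool.Agent.Lib_helper11.Cubic.Annulus

set_option autoImplicit false

/-! The sign `be = 1` occurs often. -/

namespace Pool.Agent.Lib_helper11.Cubic

/-- the auxiliary number -/
def M (A t j : ℤ) : ℤ := t ^ 2 * j ^ 2 - A * j - 1

def g1 (t j : ℤ) : ℤ := t ^ 2 * j + t

def g2 (A t j : ℤ) : ℤ := t * (t * j + 1) ^ 2 - (A + t) * (t * j + 1) - 2 * t

def g3 (A t j : ℤ) : ℤ := t * M A t j

def g4 (A t j : ℤ) : ℤ := t * (M A t j) ^ 2 - (A + t) * M A t j - 2 * t

theorem five' {A t : ℤ} (ht : t ≠ 0) (hF : ∀ n, F A t n ≠ 0) (j : ℤ) :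
    be A t (t ^ 2 * j) = 1 ∨ be A t (g1 t j) = 1 ∨ be A t (g2 A t j) = 1 ∨
      be A t (g3 A t j) = 1 ∨ be A t (g4 A t j) = 1 := by
  refine five ht hF (t ^ 2 * j) (g2 A t j) (g3 A t j) (g4 A t j)
    (-t ^ 3 * j ^ 2 + A * t * j + A + 2 * t) ?_ ?_ ?_ ?_
  · unfold g2; ring
  · ring
  · unfold g3 M; ring
  · unfold g4 g3; ring

theorem bounds {A t j E : ℤ} (ht : 1 ≤ t) (hE : E = |A| + t ^ 2 + t) (hj : 40 * E ≤ t ^ 2 * j) :
    (t ^ 2 * j ≤ g1 t j ∧ t ^ 2 * j ≤ g2 A t j ∧ t ^ 2 * j ≤ g3 A t j ∧ t ^ 2 * j ≤ g4 A t j) ∧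
    (t ^ 2 * j ≤ (t ^ 2 * j + E) ^ 4 ∧ g1 t j ≤ (t ^ 2 * j + E) ^ 4 ∧
      g2 A t j ≤ (t ^ 2 * j + E) ^ 4 ∧ g3 A t j ≤ (t ^ 2 * j + E) ^ 4 ∧
      g4 A t j ≤ (t ^ 2 * j + E) ^ 4) := by
  have hA1 : A ≤ |A| := le_abs_self A
  have hA2 : -|A| ≤ A := neg_abs_le A
  have hA0 : 0 ≤ |A| := abs_nonneg A
  have htt : t ≤ t ^ 2 := by nlinarith
  have ht0 : 0 ≤ t ^ 2 := sq_nonneg t
  set n := t ^ 2 * j with hn
  have hE2 : 2 ≤ E := by omega
  have e2 : t * g2 A t j = (n + t) * (n - A) - 2 * t ^ 2 := by rw [hn]; unfold g2; ring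
  have e3 : t * g3 A t j = n * (n - A) - t ^ 2 := by rw [hn]; unfold g3 M; ring
  have e4 : t * g4 A t j = g3 A t j * (g3 A t j - (A + t)) - 2 * t ^ 2 := by
    unfold g4 g3; ring
  have hEt : t ^ 2 + t ≤ E := by omega
  have hnE : 39 * E ≤ n - A := by omega
  have pE : ∀ x y : ℤ, 0 ≤ x → 0 ≤ y → 0 ≤ x * y := fun x y hx hy => mul_nonneg hx hy
  have l2 : n ≤ g2 A t j := by
    have h1 : (n + t) * (39 * E) ≤ (n + t) * (n - A) :=
      mul_le_mul_of_nonneg_left hnE (by omega)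
    have h4 := pE n (E - t) (by omega) (by omega)
    have h5 := pE t E (by omega) (by omega)
    have h6 := pE n (E - 2) (by omega) (by omega)
    have h3 : t * n ≤ t * g2 A t j := by rw [e2]; linarith
    exact le_of_mul_le_mul_left h3 (by omega)
  have l3 : n ≤ g3 A t j := by
    have h1 : n * (39 * E) ≤ n * (n - A) :=
      mul_le_mul_of_nonneg_left hnE (by omega)
    have h4 := pE n (E - t) (by omega) (by omega)
    have h6 := pE n (E - 2) (by omega) (by omega)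
    have h3 : t * n ≤ t * g3 A t j := by rw [e3]; linarith
    exact le_of_mul_le_mul_left h3 (by omega)
  set m := g3 A t j with hm
  have l4 : n ≤ g4 A t j := by
    have h1 : m * (38 * E) ≤ m * (m - (A + t)) :=
      mul_le_mul_of_nonneg_left (by omega) (by omega)
    have h4 := pE m (E - t) (by omega) (by omega)
    have h6 := pE m (E - 2) (by omega) (by omega)
    have h7 := pE (m - n) t (by omega) (by omega)
    have h3 : t * n ≤ t * g4 A t j := by rw [e4]; linarith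
    exact le_of_mul_le_mul_left h3 (by omega)
  have hX : 0 ≤ n + E := by omega
  have hsq : n + E ≤ (n + E) ^ 2 := by nlinarith
  have h24 : (n + E) ^ 2 * 1 ≤ (n + E) ^ 2 * (n + E) ^ 2 :=
    mul_le_mul_of_nonneg_left (by omega) (by positivity)
  have h44 : (n + E) ^ 4 = (n + E) ^ 2 * (n + E) ^ 2 := by ring
  rw [h44]
  have u2 : g2 A t j ≤ (n + E) ^ 2 := by
    have h1 := pE (t - 1) (g2 A t j) (by omega) (by omega)
    have h2 : (n + t) * (n - A) ≤ (n + E) * (n + E) :=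
      mul_le_mul (by omega) (by omega) (by omega) hX
    linarith
  have u3 : m ≤ n * (n - A) := by
    have h1 := pE (t - 1) m (by omega) (by omega)
    linarith
  have u3' : n * (n - A) + |A| ≤ (n + E) ^ 2 := by
    have h1 : n * (n - A) ≤ n * (n + E) := mul_le_mul_of_nonneg_left (by omega) (by omega)
    have h2 := pE n E (by omega) (by omega)
    have h3 := pE E (E - 1) (by omega) (by omega)
    linarith
  have u4 : g4 A t j ≤ (n + E) ^ 2 * (n + E) ^ 2 := by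
    have h1 := pE (t - 1) (g4 A t j) (by omega) (by omega)
    have h2 : m * (m - (A + t)) ≤ (n + E) ^ 2 * (n + E) ^ 2 :=
      mul_le_mul (by omega) (by omega) (by omega) (by positivity)
    linarith
  refine ⟨⟨?_, l2, l3, l4⟩, by omega, ?_, by omega, by omega, u4⟩
  · unfold g1; omega
  · unfold g1; omega

/-- the sign `1` in every interval `[N, 2 N^4]` -/
theorem plus_exists {A t : ℤ} (ht : 1 ≤ t) (hF : ∀ n, F A t n ≠ 0) {N : ℤ}
    (hN : 40 * (|A| + t ^ 2 + t) ≤ N) : ∃ v, N ≤ v ∧ v ≤ 2 * N ^ 4 ∧ be A t v = 1 := by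
  have ht2 : 0 < t ^ 2 := by positivity
  obtain ⟨j, hj1, hj2⟩ : ∃ j : ℤ, N ≤ t ^ 2 * j ∧ t ^ 2 * j ≤ N + t ^ 2 := by
    refine ⟨N / t ^ 2 + 1, ?_, ?_⟩
    · have := Int.lt_mul_ediv_self_add (x := N) ht2
      have h2 : t ^ 2 * (N / t ^ 2 + 1) = t ^ 2 * (N / t ^ 2) + t ^ 2 := by ring
      omega
    · have := Int.mul_ediv_self_le (x := N) (k := t ^ 2) (by omega)
      have h2 : t ^ 2 * (N / t ^ 2 + 1) = t ^ 2 * (N / t ^ 2) + t ^ 2 := by ring
      omega
  have hA0 : 0 ≤ |A| := abs_nonneg A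
  obtain ⟨⟨l1, l2, l3, l4⟩, u0, u1, u2, u3, u4⟩ :=
    bounds (A := A) (j := j) ht rfl (by omega)
  have h4 := pow_four_bound (D := |A| + t ^ 2 + t) (N := N) (by omega) hN
  have h5 : (t ^ 2 * j + (|A| + t ^ 2 + t)) ^ 4 ≤ (N + 3 * (|A| + t ^ 2 + t)) ^ 4 :=
    pow_le_pow_left₀ (by omega) (by omega) 4
  rcases five' (A := A) (by omega : t ≠ 0) hF j with h | h | h | h | h
  · exact ⟨_, hj1, by omega, h⟩
  · exact ⟨_, by omega, by omega, h⟩
  · exact ⟨_, by omega, by omega, h⟩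
  · exact ⟨_, by omega, by omega, h⟩
  · exact ⟨_, by omega, by omega, h⟩

theorem quad_inj {s B u v : ℤ} (h : B < s * (u + v)) (he : s * u ^ 2 - B * u = s * v ^ 2 - B * v) :
    u = v := by
  have h1 : (u - v) * (s * (u + v) - B) = 0 := by linear_combination he
  rcases mul_eq_zero.1 h1 with h2 | h2
  · omega
  · omega

/-- counting -/
theorem count_int {A t : ℤ} (ht : 1 ≤ t) (hF : ∀ n, F A t n ≠ 0) {J₀ : ℤ}
    (hJ₀ : 40 * (|A| + t ^ 2 + t) ≤ J₀) (J : ℤ) :
    ((Finset.Icc J₀ J).card : ℕ) ≤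
      5 * ((Finset.Icc 1 (16 * t ^ 8 * J ^ 4)).filter (fun v : ℤ => be A t v = 1)).card := by
  set S := (Finset.Icc 1 (16 * t ^ 8 * J ^ 4)).filter (fun v : ℤ => be A t v = 1) with hS
  have hA1 : A ≤ |A| := le_abs_self A
  have hA0 : 0 ≤ |A| := abs_nonneg A
  have ht2 : 1 ≤ t ^ 2 := by nlinarith
  -- general counting principle
  have key : ∀ g : ℤ → ℤ, (∀ j ∈ Finset.Icc J₀ J, 1 ≤ g j ∧ g j ≤ (t ^ 2 * j + (|A| + t ^ 2 + t)) ^ 4) →
      (∀ j ∈ Finset.Icc J₀ J, ∀ k ∈ Finset.Icc J₀ J, g j = g k → j = k) →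
      ((Finset.Icc J₀ J).filter (fun j => be A t (g j) = 1)).card ≤ S.card := by
    intro g hg hinj
    refine Finset.card_le_card_of_injOn g ?_ ?_
    · intro j hj
      rw [Finset.mem_coe, Finset.mem_filter] at hj
      obtain ⟨hj1, hj2⟩ := hj
      have hb := hg j hj1
      rw [Finset.mem_Icc] at hj1
      rw [Finset.mem_coe, hS, Finset.mem_filter, Finset.mem_Icc]
      refine ⟨⟨hb.1, hb.2.trans ?_⟩, hj2⟩
      have h1 : 40 * (|A| + t ^ 2 + t) ≤ t ^ 2 * j := by nlinarith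
      have h2 : t ^ 2 * j ≤ t ^ 2 * J := mul_le_mul_of_nonneg_left hj1.2 (by omega)
      have h3 : (t ^ 2 * j + (|A| + t ^ 2 + t)) ^ 4 ≤ (2 * (t ^ 2 * J)) ^ 4 :=
        pow_le_pow_left₀ (by omega) (by omega) 4
      have h4 : (2 * (t ^ 2 * J)) ^ 4 = 16 * t ^ 8 * J ^ 4 := by ring
      omega
    · intro j hj k hk hjk
      rw [Finset.mem_coe, Finset.mem_filter] at hj hk
      exact hinj j hj.1 k hk.1 hjk
  have big : ∀ j ∈ Finset.Icc J₀ J, 40 * (|A| + t ^ 2 + t) ≤ t ^ 2 * j := by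
    intro j hj
    rw [Finset.mem_Icc] at hj
    nlinarith
  have big' : ∀ j ∈ Finset.Icc J₀ J, 40 * (|A| + t ^ 2 + t) ≤ j := by
    intro j hj
    rw [Finset.mem_Icc] at hj
    omega
  -- injectivity
  have i0 : ∀ j ∈ Finset.Icc J₀ J, ∀ k ∈ Finset.Icc J₀ J, t ^ 2 * j = t ^ 2 * k → j = k := by
    intro j _ k _ h
    exact mul_left_cancel₀ (by positivity) h
  have i1 : ∀ j ∈ Finset.Icc J₀ J, ∀ k ∈ Finset.Icc J₀ J, g1 t j = g1 t k → j = k := by
    intro j hj k hk h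
    unfold g1 at h
    exact i0 j hj k hk (by omega)
  have i2 : ∀ j ∈ Finset.Icc J₀ J, ∀ k ∈ Finset.Icc J₀ J, g2 A t j = g2 A t k → j = k := by
    intro j hj k hk h
    have hj' := big' j hj
    have hk' := big' k hk
    unfold g2 at h
    have h1 : t * j + 1 = t * k + 1 := by
      refine quad_inj (s := t) (B := A + t) ?_ (by linarith)
      have : 80 * (|A| + t ^ 2 + t) ≤ j + k := by omega
      nlinarith
    have h2 : t * j = t * k := by omega
    exact mul_left_cancel₀ (by omega) h2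
  have iM : ∀ j ∈ Finset.Icc J₀ J, ∀ k ∈ Finset.Icc J₀ J, M A t j = M A t k → j = k := by
    intro j hj k hk h
    have hj' := big' j hj
    have hk' := big' k hk
    unfold M at h
    refine quad_inj (s := t ^ 2) (B := A) ?_ (by linarith)
    nlinarith
  have i3 : ∀ j ∈ Finset.Icc J₀ J, ∀ k ∈ Finset.Icc J₀ J, g3 A t j = g3 A t k → j = k := by
    intro j hj k hk h
    unfold g3 at h
    exact iM j hj k hk (mul_left_cancel₀ (by omega) h)
  have Mbig : ∀ j ∈ Finset.Icc J₀ J, 40 * (|A| + t ^ 2 + t) ≤ t * M A t j := by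
    intro j hj
    have := (bounds (A := A) (j := j) ht rfl (big j hj)).1.2.2.1
    unfold g3 at this
    have h2 := big j hj
    omega
  have i4 : ∀ j ∈ Finset.Icc J₀ J, ∀ k ∈ Finset.Icc J₀ J, g4 A t j = g4 A t k → j = k := by
    intro j hj k hk h
    have hj' := Mbig j hj
    have hk' := Mbig k hk
    unfold g4 at h
    refine iM j hj k hk (quad_inj (s := t) (B := A + t) ?_ (by linarith))
    nlinarith
  have b := fun j hj => bounds (A := A) (j := j) ht rfl (big j hj)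
  have c0 := key (fun j => t ^ 2 * j) (fun j hj => ⟨by have := big j hj; show 1 ≤ t ^ 2 * j; omega, (b j hj).2.1⟩) i0
  have c1 := key (g1 t) (fun j hj => ⟨by have := big j hj; have := (b j hj).1.1; omega, (b j hj).2.2.1⟩) i1
  have c2 := key (g2 A t) (fun j hj => ⟨by have := big j hj; have := (b j hj).1.2.1; omega, (b j hj).2.2.2.1⟩) i2
  have c3 := key (g3 A t) (fun j hj => ⟨by have := big j hj; have := (b j hj).1.2.2.1; omega, (b j hj).2.2.2.2.1⟩) i3
  have c4 := key (g4 A t) (fun j hj => ⟨by have := big j hj; have := (b j hj).1.2.2.2; omega, (b j hj).2.2.2.2.2⟩) i4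
  have hsub : Finset.Icc J₀ J ⊆
      (Finset.Icc J₀ J).filter (fun j => be A t (t ^ 2 * j) = 1) ∪
      ((Finset.Icc J₀ J).filter (fun j => be A t (g1 t j) = 1) ∪
      ((Finset.Icc J₀ J).filter (fun j => be A t (g2 A t j) = 1) ∪
      ((Finset.Icc J₀ J).filter (fun j => be A t (g3 A t j) = 1) ∪
      (Finset.Icc J₀ J).filter (fun j => be A t (g4 A t j) = 1)))) := by
    intro j hj
    simp only [Finset.mem_union, Finset.mem_filter]
    rcases five' (A := A) (by omega : t ≠ 0) hF j with h | h | h | h | h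
    · exact Or.inl ⟨hj, h⟩
    · exact Or.inr (Or.inl ⟨hj, h⟩)
    · exact Or.inr (Or.inr (Or.inl ⟨hj, h⟩))
    · exact Or.inr (Or.inr (Or.inr (Or.inl ⟨hj, h⟩)))
    · exact Or.inr (Or.inr (Or.inr (Or.inr ⟨hj, h⟩)))
  have hc := Finset.card_le_card hsub
  have u1 := Finset.card_union_le ((Finset.Icc J₀ J).filter (fun j => be A t (t ^ 2 * j) = 1))
    ((Finset.Icc J₀ J).filter (fun j => be A t (g1 t j) = 1) ∪
      ((Finset.Icc J₀ J).filter (fun j => be A t (g2 A t j) = 1) ∪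
      ((Finset.Icc J₀ J).filter (fun j => be A t (g3 A t j) = 1) ∪
      (Finset.Icc J₀ J).filter (fun j => be A t (g4 A t j) = 1))))
  have u2 := Finset.card_union_le ((Finset.Icc J₀ J).filter (fun j => be A t (g1 t j) = 1))
      ((Finset.Icc J₀ J).filter (fun j => be A t (g2 A t j) = 1) ∪
      ((Finset.Icc J₀ J).filter (fun j => be A t (g3 A t j) = 1) ∪
      (Finset.Icc J₀ J).filter (fun j => be A t (g4 A t j) = 1)))
  have u3 := Finset.card_union_le ((Finset.Icc J₀ J).filter (fun j => be A t (g2 A t j) = 1))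
      ((Finset.Icc J₀ J).filter (fun j => be A t (g3 A t j) = 1) ∪
      (Finset.Icc J₀ J).filter (fun j => be A t (g4 A t j) = 1))
  have u4 := Finset.card_union_le ((Finset.Icc J₀ J).filter (fun j => be A t (g3 A t j) = 1))
      ((Finset.Icc J₀ J).filter (fun j => be A t (g4 A t j) = 1))
  omega

end Pool.Agent.Lib_helper11.Cubic
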