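import Pool.Agent.Lib_helper11.Cubic.Gen

set_option autoImplicit false

/-! The case `t = 2`, `A` odd. -/

namespace Pool.Agent.Lib_helper11.Cubic

theorem adm_two {A : ℤ} (hA : Odd A) (n : ℤ) :
    ∃ p, 2 * p = n ^ 2 - (A + 2) * n - 2 * 2 ^ 2 := by
  obtain ⟨b, hb⟩ := hA
  rcases Int.even_or_odd' n with ⟨k, hk | hk⟩
  · exact ⟨2 * k ^ 2 - (A + 2) * k - 4, by rw [hk]; ring⟩
  · refine ⟨2 * k ^ 2 + 2 * k - 2 * k * b - 3 * k - b - 5, ?_⟩
    rw [hk, hb]; ring

/-- descent down to radius five -/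
theorem descent2 {A : ℤ} (hAodd : Odd A) (ha : -1 ≤ A) {K Z : ℤ}
    (hK : 5 ≤ K) (hZ : K ^ 2 + (A + 2) * K ≤ Z)
    (hpos : ∀ k, K ≤ k → k ≤ Z → be A 2 (A + k) = 1)
    (hneg : ∀ k, K ≤ k → k ≤ Z → be A 2 (-k) = 1) :
    ∀ l, 5 ≤ l → l ≤ Z → be A 2 (-l) = 1 ∧ be A 2 (A + l) = 1 := by
  have hKZ : K ≤ Z := by nlinarith
  have h20 : (2 : ℤ) ≠ 0 := by norm_num
  have step : ∀ j : ℕ, ∀ k : ℤ, k = K - j → 5 ≤ k →
      be A 2 (-k) = 1 ∧ be A 2 (A + k) = 1 := by
    intro j
    induction j using Nat.strong_induction_on with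
    | _ j ih =>
      intro k hk h3
      rcases Nat.eq_zero_or_pos j with hj | hj
      · subst hj
        have : k = K := by simpa using hk
        subst this
        exact ⟨hneg k le_rfl hKZ, hpos k le_rfl hKZ⟩
      have hkK : k < K := by
        have : (0 : ℤ) < j := by exact_mod_cast hj
        omega
      have hout : ∀ l, k < l → l ≤ Z → be A 2 (-l) = 1 ∧ be A 2 (A + l) = 1 := by
        intro l hl hlZ
        by_cases hlK : K ≤ l
        · exact ⟨hneg l hlK hlZ, hpos l hlK hlZ⟩
        · push Not at hlK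
          obtain ⟨i, hi⟩ : ∃ i : ℕ, (i : ℤ) = K - l := ⟨(K - l).toNat, by omega⟩
          exact ih i (by omega) l (by omega) (by omega)
      have hk2Z : k ^ 2 + (A + 2) * k ≤ Z := by nlinarith
      have hk2Z' : k + 2 ≤ Z := by nlinarith
      have h1 : be A 2 (-k) = 1 := by
        obtain ⟨p, hp⟩ := adm_two hAodd (-k)
        have h2 := be_P h20 hp
        have e2 : A + 2 - -k = A + (k + 2) := by ring
        rw [e2, (hout (k + 2) (by omega) hk2Z').2, mul_one] at h2
        rw [← h2]
        have e3 : p = A + (p - A) := by ring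
        rw [e3]
        refine (hout _ ?_ ?_).2
        · nlinarith
        · nlinarith
      refine ⟨h1, ?_⟩
      obtain ⟨p, hp⟩ := adm_two hAodd (-k)
      have hq : 2 * (-p - (-k) + A) = -(-k) ^ 2 + A * (-k) + A * 2 + 2 * 2 ^ 2 := by
        linear_combination -hp
      have h2 := be_Q h20 hq
      have e2 : A - -k = A + k := by ring
      rw [e2, h1, one_mul] at h2
      rw [← h2]
      have e3 : -p - (-k) + A = -(p - k - A) := by ring
      rw [e3]
      refine (hout _ ?_ ?_).1
      · nlinarith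
      · nlinarith
  intro l hl hlZ
  by_cases hlK : K ≤ l
  · exact ⟨hneg l hlK hlZ, hpos l hlK hlZ⟩
  · push Not at hlK
    exact step (K - l).toNat l (by omega) hl

theorem be_two_two (A : ℤ) : be A 2 2 = liouville (A + 3) := by
  unfold be
  have : F A 2 2 = -(2 * 2 * 2 * (A + 3)) := by unfold F; ring
  rw [this, liouville_neg, liouville_mul, liouville_mul, liouville_mul]
  have h := liouville_sq (by norm_num : (2 : ℤ) ≠ 0)
  linear_combination (liouville 2 * liouville 2 * liouville (A + 3) + liouville (A + 3)) * h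

theorem be_two_neg_one (A : ℤ) : be A 2 (-1) = liouville 2 * liouville (A + 3) := by
  unfold be
  have : F A 2 (-1) = A + 3 := by unfold F; ring
  rw [this]

theorem liouville_two : liouville 2 = -1 := by
  exact_mod_cast liouville_prime Nat.prime_two

/-- the outer region cannot be constant for `A ≥ 9` -/
theorem false2 {A : ℤ} (hAodd : Odd A) (hA : 9 ≤ A) {Z : ℤ} (hZ : (A + 3) ^ 2 ≤ Z)
    (hout : ∀ l, 5 ≤ l → l ≤ Z → be A 2 (-l) = 1 ∧ be A 2 (A + l) = 1) : False := by
  have h20 : (2 : ℤ) ≠ 0 := by norm_num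
  obtain ⟨b, hb⟩ := id hAodd
  have hF : ∀ n, 1 ≤ n → n ≤ A + 1 → be A 2 n * be A 2 n = 1 := by
    intro n hn1 hn2
    have hz : F A 2 n ≠ 0 := by
      intro h0
      have h1 : n ∣ 8 := ⟨n ^ 2 - A * n - (A * 2 + 3 * 2 ^ 2), by
        have : F A 2 n = n * (n ^ 2 - A * n - (A * 2 + 3 * 2 ^ 2)) - 8 := by unfold F; ring
        linarith⟩
      have h2 : n ≤ 8 := Int.le_of_dvd (by norm_num) h1
      unfold F at h0
      interval_cases n <;> omega
    have h1 := liouville_sq hz
    have h2 := liouville_sq h20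
    unfold be
    linear_combination liouville 2 * liouville 2 * h1 + h2
  have hQ : ∀ n, 1 ≤ n → n ≤ A - 1 → be A 2 n * be A 2 (A - n) = 1 := by
    intro n hn1 hn2
    obtain ⟨p, hp⟩ := adm_two hAodd n
    have hq : 2 * (-p - n + A) = -n ^ 2 + A * n + A * 2 + 2 * 2 ^ 2 := by
      linear_combination -hp
    have h2 := be_Q h20 hq
    rw [← h2]
    have e : -p - n + A = A + (-p - n) := by ring
    rw [e]
    refine (hout _ ?_ ?_).2
    · nlinarith [mul_nonneg (by omega : 0 ≤ n - 1) (by omega : 0 ≤ A - 1 - n)]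
    · nlinarith [sq_nonneg (A - 2 * n)]
  have hP : ∀ n, 1 ≤ n → n ≤ A + 1 → be A 2 n * be A 2 (A + 2 - n) = 1 := by
    intro n hn1 hn2
    obtain ⟨p, hp⟩ := adm_two hAodd n
    have h2 := be_P h20 hp
    rw [← h2]
    have e : p = -(-p) := by ring
    rw [e]
    refine (hout _ ?_ ?_).1
    · nlinarith [mul_nonneg (by omega : 0 ≤ n - 1) (by omega : 0 ≤ A + 1 - n)]
    · nlinarith [sq_nonneg (A + 2 - 2 * n)]
  have cancel : ∀ x y z : ℤ, y * y = 1 → x * y = 1 → z * y = 1 → x = z := by
    intro x y z h1 h2 h3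
    have : x * y * y = z * y * y := by rw [h2, h3]
    rw [mul_assoc, mul_assoc, h1] at this
    simpa using this
  have hshift : ∀ n, 1 ≤ n → n ≤ A - 1 → be A 2 (n + 2) = be A 2 n := by
    intro n hn1 hn2
    refine cancel _ (be A 2 (A - n)) _ (hF _ (by omega) (by omega)) ?_ (hQ n hn1 hn2)
    have := hP (n + 2) (by omega) (by omega)
    rwa [show A + 2 - (n + 2) = A - n by ring] at this
  -- evens
  have heven : ∀ k : ℕ, 2 * (k : ℤ) + 2 ≤ A + 1 → be A 2 (2 * k + 2) = be A 2 2 := by
    intro k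
    induction k with
    | zero => intro _; simp
    | succ k ih =>
      intro hk
      push_cast at hk ⊢
      rw [← ih (by omega), ← hshift (2 * k + 2) (by omega) (by omega)]
      congr 1
  have hodd : ∀ k : ℕ, 2 * (k : ℤ) + 1 ≤ A + 1 → be A 2 (2 * k + 1) = be A 2 1 := by
    intro k
    induction k with
    | zero => intro _; simp
    | succ k ih =>
      intro hk
      push_cast at hk ⊢
      rw [← ih (by omega), ← hshift (2 * k + 1) (by omega) (by omega)]
      congr 1
  have hA1 : be A 2 (A + 1) = be A 2 2 := by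
    obtain ⟨k, hk⟩ : ∃ k : ℕ, (k : ℤ) = b := ⟨b.toNat, by omega⟩
    have := heven k (by omega)
    rwa [show 2 * (k : ℤ) + 2 = A + 1 by omega] at this
  have h12 : be A 2 1 = be A 2 2 := by
    have h1 := hP 1 le_rfl (by omega)
    rw [show A + 2 - 1 = A + 1 by ring, hA1] at h1
    exact cancel _ (be A 2 2) _ (hF 2 (by norm_num) (by omega)) h1 (hF 2 (by norm_num) (by omega))
  have hall : ∀ n, 1 ≤ n → n ≤ A + 1 → be A 2 n = be A 2 2 := by
    intro n hn1 hn2
    rcases Int.even_or_odd' n with ⟨k, hk | hk⟩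
    · obtain ⟨j, hj⟩ : ∃ j : ℕ, (j : ℤ) = k - 1 := ⟨(k - 1).toNat, by omega⟩
      have := heven j (by omega)
      rwa [show 2 * (j : ℤ) + 2 = n by omega] at this
    · obtain ⟨j, hj⟩ : ∃ j : ℕ, (j : ℤ) = k := ⟨k.toNat, by omega⟩
      have := hodd j (by omega)
      rw [show 2 * (j : ℤ) + 1 = n by omega] at this
      rw [this, h12]
  set B := be A 2 2 with hB
  have hBB : B * B = 1 := hF 2 (by norm_num) (by omega)
  -- be (-1) = 1
  have hm1 : be A 2 (-1) = 1 := by
    have hq : 2 * (b + 4) = -(-1) ^ 2 + A * (-1) + A * 2 + 2 * 2 ^ 2 := by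
      rw [hb]; ring
    have h2 := be_Q h20 hq
    rw [hall (b + 4) (by omega) (by omega), show A - -1 = A + 1 by ring, hA1] at h2
    have : be A 2 (-1) * B * B = B * B := by rw [← h2]
    rw [mul_assoc, hBB] at this
    simpa using this
  -- be (A + 3) = B
  have h3 : be A 2 (A + 3) = B := by
    have hp : 2 * (b - 2) = (-1) ^ 2 - (A + 2) * (-1) - 2 * 2 ^ 2 := by
      rw [hb]; ring
    have h2 := be_P h20 hp
    rw [hall (b - 2) (by omega) (by omega), hm1, one_mul,
      show A + 2 - -1 = A + 3 by ring] at h2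
    exact h2.symm
  -- be (-3) = 1
  have hm3 : be A 2 (-3) = 1 := by
    have hp : 2 * (A + (b + 4)) = (-3) ^ 2 - (A + 2) * (-3) - 2 * 2 ^ 2 := by
      rw [hb]; ring
    have h2 := be_P h20 hp
    rw [(hout (b + 4) (by omega) (by nlinarith)).2, show A + 2 - -3 = A + 5 by ring,
      (hout 5 le_rfl (by nlinarith)).2, mul_one] at h2
    exact h2.symm
  have hB1 : B = 1 := by
    have hq : 2 * (-(b + 1)) = -(-3) ^ 2 + A * (-3) + A * 2 + 2 * 2 ^ 2 := by
      rw [hb]; ring
    have h2 := be_Q h20 hq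
    rw [(hout (b + 1) (by omega) (by nlinarith)).1, hm3, one_mul,
      show A - -3 = A + 3 by ring, h3] at h2
    exact h2.symm
  have e1 := be_two_two A
  have e2 := be_two_neg_one A
  rw [← hB, hB1] at e1
  rw [hm1, ← e1, liouville_two] at e2
  norm_num at e2

theorem small_val {A n x y : ℤ} (hF : F A 2 n = -(x * y)) (hx : liouville x = liouville y)
    (hy : y ≠ 0) : be A 2 n = -1 := by
  unfold be
  rw [hF, liouville_neg, liouville_mul, hx, liouville_sq hy, liouville_two]
  norm_num

/-- the outer region cannot be constant -/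
theorem false2' {A : ℤ} (hAodd : Odd A) (hA : -1 ≤ A) {Z : ℤ} (hZ : (A + 3) ^ 2 + 6 ≤ Z)
    (hout : ∀ l, 5 ≤ l → l ≤ Z → be A 2 (-l) = 1 ∧ be A 2 (A + l) = 1) : False := by
  rcases (show 9 ≤ A ∨ A ≤ 8 by omega) with h | h
  · exact false2 hAodd h (by omega) hout
  have hZ5 : 6 ≤ Z := by nlinarith
  have h5 := (hout 5 le_rfl (by omega)).1
  have h6 := (hout 6 (by norm_num) hZ5).2
  have p2 : liouville 2 = -1 := liouville_two
  have p11 : liouville 11 = -1 := by exact_mod_cast liouville_prime (by norm_num : Nat.Prime 11)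
  have p29 : liouville 29 = -1 := by exact_mod_cast liouville_prime (by norm_num : Nat.Prime 29)
  have p59 : liouville 59 = -1 := by exact_mod_cast liouville_prime (by norm_num : Nat.Prime 59)
  have p89 : liouville 89 = -1 := by exact_mod_cast liouville_prime (by norm_num : Nat.Prime 89)
  have p7 : liouville 7 = -1 := by exact_mod_cast liouville_prime (by norm_num : Nat.Prime 7)
  have p17 : liouville 17 = -1 := by exact_mod_cast liouville_prime (by norm_num : Nat.Prime 17)
  have p8 : liouville 8 = -1 := by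
    rw [show (8 : ℤ) = 2 * 2 * 2 by norm_num, liouville_mul, liouville_mul, p2]; norm_num
  have hcases : A = -1 ∨ A = 1 ∨ A = 3 ∨ A = 5 ∨ A = 7 := by
    obtain ⟨b, hb⟩ := hAodd
    omega
  rcases hcases with rfl | rfl | rfl | rfl | rfl
  · have := small_val (A := -1) (n := -5) (x := 2) (y := 29) (by unfold F; norm_num)
      (by rw [p2, p29]) (by norm_num)
    rw [this] at h5; norm_num at h5
  · have := small_val (A := 1) (n := -5) (x := 8) (y := 11) (by unfold F; norm_num)
      (by rw [p8, p11]) (by norm_num)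
    rw [this] at h5; norm_num at h5
  · have := small_val (A := 3) (n := -5) (x := 2) (y := 59) (by unfold F; norm_num)
      (by rw [p2, p59]) (by norm_num)
    rw [this] at h5; norm_num at h5
  · have := small_val (A := 5) (n := 5 + 6) (x := -(2 * 2 * 7)) (y := 17)
      (by unfold F; norm_num)
      (by rw [liouville_neg, liouville_mul, liouville_mul, p2, p7, p17]; norm_num) (by norm_num)
    rw [this] at h6; norm_num at h6
  · have := small_val (A := 7) (n := -5) (x := 2) (y := 89) (by unfold F; norm_num)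
      (by rw [p2, p89]) (by norm_num)
    rw [this] at h5; norm_num at h5

end Pool.Agent.Lib_helper11.Cubic
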