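import Pool.Agent.Lib_helper11.Cubic.Count
import Pool.Agent.Lib_helper11.Cubic.Two

set_option autoImplicit false

/-! The final theorems. -/

namespace Pool.Agent.Lib_helper11.Cubic

open Polynomial

/-- The cubic polynomial `X^3 - A X^2 - (A t + 3 t^2) X - t^3`. -/
noncomputable def cubic (A t : ℤ) : ℤ[X] :=
  X ^ 3 - C A * X ^ 2 - C (A * t + 3 * t ^ 2) * X - C (t ^ 3)

theorem cubic_eval (A t n : ℤ) : (cubic A t).eval n = F A t n := by
  unfold cubic F
  simp only [eval_sub, eval_mul, eval_pow, eval_X, eval_C]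

theorem cubic_natDegree (A t : ℤ) : (cubic A t).natDegree = 3 := by
  unfold cubic
  compute_degree!

theorem cubic_monic (A t : ℤ) : (cubic A t).Monic := by
  unfold cubic
  monicity!

theorem cubic_irreducible_iff (A t : ℤ) :
    Irreducible (cubic A t) ↔ ∀ n, F A t n ≠ 0 := by
  rw [(cubic_monic A t).irreducible_iff_roots_eq_zero_of_degree_le_three
    (by rw [cubic_natDegree]; norm_num) (by rw [cubic_natDegree])]
  have hne : cubic A t ≠ 0 := (cubic_monic A t).ne_zero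
  constructor
  · intro h n hn
    have h1 : n ∈ (cubic A t).roots := by
      rw [mem_roots hne, IsRoot.def, cubic_eval]
      exact hn
    rw [h] at h1
    simp at h1
  · intro h
    rw [Multiset.eq_zero_iff_forall_notMem]
    intro n hn
    rw [mem_roots hne, IsRoot.def, cubic_eval] at hn
    exact h n hn

theorem F_one_ne (a n : ℤ) : F a 1 n ≠ 0 := by
  have h : F a 1 n = f a n := by unfold F f; ring
  rw [h]
  exact f_ne a n

theorem F_two_ne {A : ℤ} (hA : Odd A) (hA3 : A ≠ -3) (n : ℤ) : F A 2 n ≠ 0 := by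
  intro h0
  obtain ⟨b, hb⟩ := hA
  have h1 : n ∣ 8 := ⟨n ^ 2 - A * n - (A * 2 + 3 * 2 ^ 2), by
    have : F A 2 n = n * (n ^ 2 - A * n - (A * 2 + 3 * 2 ^ 2)) - 8 := by unfold F; ring
    linarith⟩
  have h2 : n ≤ 8 := Int.le_of_dvd (by norm_num) h1
  have h3 : -n ≤ 8 := Int.le_of_dvd (by norm_num) ((neg_dvd).2 h1)
  have h4 : -8 ≤ n := by omega
  unfold F at h0
  interval_cases n <;> omega

theorem be_eq_one_iff {A t n : ℤ} (ht : t ≠ 0) :
    be A t n = 1 ↔ liouville (F A t n) = liouville t := by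
  have h := liouville_sq ht
  unfold be
  constructor
  · intro h1
    have : liouville t * (liouville t * liouville (F A t n)) = liouville t * 1 := by rw [h1]
    rw [← mul_assoc, h, one_mul, mul_one] at this
    exact this
  · intro h1
    rw [h1, h]

/-- The count. -/
theorem count_final {A t : ℤ} (ht : 1 ≤ t) (hF : ∀ n, F A t n ≠ 0) :
    ∃ c : ℝ, 0 < c ∧ ∃ N₀ : ℕ, ∀ N : ℕ, N₀ ≤ N →
      c * (N : ℝ) ^ ((1 : ℝ) / 4) ≤
        (((Finset.Icc 1 N).filter
          (fun n : ℕ => liouville ((cubic A t).eval (n : ℤ)) = liouville t)).card : ℝ) := by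
  obtain ⟨J₀, hJ₀⟩ : ∃ J₀ : ℕ, (J₀ : ℤ) = 40 * (|A| + t ^ 2 + t) :=
    ⟨(40 * (|A| + t ^ 2 + t)).toNat, Int.toNat_of_nonneg (by positivity)⟩
  set K : ℝ := 16 * (t : ℝ) ^ 8 with hK
  have ht' : (1 : ℝ) ≤ t := by exact_mod_cast ht
  have hK1 : 0 < K := by positivity
  -- the real fourth root
  set r : ℕ → ℝ := fun N => ((N : ℝ) / K) ^ ((1 : ℝ) / 4) with hr
  have hr0 : ∀ N, 0 ≤ r N := fun N => by positivity
  have hr4 : ∀ N, (r N) ^ 4 = (N : ℝ) / K := by
    intro N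
    have h1 : 0 ≤ (N : ℝ) / K := by positivity
    rw [hr]
    show (((N : ℝ) / K) ^ ((1 : ℝ) / 4)) ^ 4 = _
    rw [← Real.rpow_natCast, ← Real.rpow_mul h1]
    norm_num
  have main : ∀ N : ℕ, r N - J₀ ≤ 5 * (((Finset.Icc 1 N).filter
          (fun n : ℕ => liouville ((cubic A t).eval (n : ℤ)) = liouville t)).card : ℝ) := by
    intro N
    set J : ℕ := ⌊r N⌋₊ with hJ
    have hJ1 : (J : ℝ) ≤ r N := Nat.floor_le (hr0 N)
    have hJ2 : r N < J + 1 := Nat.lt_floor_add_one _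
    have hC : (16 * t ^ 8 * (J : ℤ) ^ 4) ≤ (N : ℤ) := by
      have h1 : (J : ℝ) ^ 4 ≤ (N : ℝ) / K := by
        rw [← hr4 N]
        exact pow_le_pow_left₀ (by positivity) hJ1 4
      have h2 : K * (J : ℝ) ^ 4 ≤ N := by
        rw [le_div_iff₀ hK1] at h1
        linarith
      rw [hK] at h2
      exact_mod_cast h2
    have h3 := count_int ht hF (J₀ := (J₀ : ℤ)) (by rw [hJ₀]) (J : ℤ)
    have h4 : ((Finset.Icc 1 (16 * t ^ 8 * (J : ℤ) ^ 4)).filter
          (fun v : ℤ => be A t v = 1)).card ≤ ((Finset.Icc 1 N).filter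
          (fun n : ℕ => liouville ((cubic A t).eval (n : ℤ)) = liouville t)).card := by
      refine Finset.card_le_card_of_injOn (fun v => v.toNat) ?_ ?_
      · intro v hv
        rw [Finset.mem_coe, Finset.mem_filter, Finset.mem_Icc] at hv
        rw [Finset.mem_coe, Finset.mem_filter, Finset.mem_Icc]
        obtain ⟨⟨hv1, hv2⟩, hv3⟩ := hv
        have hcast : ((v.toNat : ℕ) : ℤ) = v := Int.toNat_of_nonneg (by omega)
        have g1 : 1 ≤ v.toNat := by omega
        have g2 : v.toNat ≤ N := by omega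
        refine ⟨⟨g1, g2⟩, ?_⟩
        show liouville ((cubic A t).eval ((v.toNat : ℕ) : ℤ)) = liouville t
        rw [hcast, cubic_eval]
        exact (be_eq_one_iff (by omega)).1 hv3
      · intro v hv w hw hvw
        rw [Finset.mem_coe, Finset.mem_filter, Finset.mem_Icc] at hv hw
        have hvw' : v.toNat = w.toNat := hvw
        omega
    have h5 : ((Finset.Icc (J₀ : ℤ) (J : ℤ)).card : ℤ) ≥ J + 1 - J₀ := by
      rw [Int.card_Icc]
      exact Int.self_le_toNat _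
    have h6 : ((J : ℤ) + 1 - J₀ : ℤ) ≤ 5 * (((Finset.Icc 1 N).filter
          (fun n : ℕ => liouville ((cubic A t).eval (n : ℤ)) = liouville t)).card : ℤ) := by
      have h7 : ((Finset.Icc (J₀ : ℤ) (J : ℤ)).card : ℤ) ≤ 5 * (((Finset.Icc 1 N).filter
          (fun n : ℕ => liouville ((cubic A t).eval (n : ℤ)) = liouville t)).card : ℤ) := by
        exact_mod_cast h3.trans (Nat.mul_le_mul_left 5 h4)
      linarith
    have h8 : ((J : ℝ) + 1 - J₀ : ℝ) ≤ 5 * (((Finset.Icc 1 N).filter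
          (fun n : ℕ => liouville ((cubic A t).eval (n : ℤ)) = liouville t)).card : ℝ) := by
      exact_mod_cast h6
    linarith
  -- choose the constants
  refine ⟨1 / (10 * K ^ ((1 : ℝ) / 4)), by positivity, ⌈K * (2 * (J₀ : ℝ)) ^ 4⌉₊, fun N hN => ?_⟩
  have hN' : K * (2 * (J₀ : ℝ)) ^ 4 ≤ N := (Nat.le_ceil _).trans (by exact_mod_cast hN)
  have h1 : 2 * (J₀ : ℝ) ≤ r N := by
    by_contra hcon
    push Not at hcon
    have h2 : (r N) ^ 4 < (2 * (J₀ : ℝ)) ^ 4 := pow_lt_pow_left₀ hcon (hr0 N) (by norm_num)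
    rw [hr4, div_lt_iff₀ hK1] at h2
    linarith
  have h2 := main N
  have h3 : 1 / (10 * K ^ ((1 : ℝ) / 4)) * (N : ℝ) ^ ((1 : ℝ) / 4) = r N / 10 := by
    rw [hr]
    show _ = ((N : ℝ) / K) ^ ((1 : ℝ) / 4) / 10
    rw [Real.div_rpow (by positivity) hK1.le]
    field_simp
  rw [h3]
  linarith

/-- The sign `-1` in every interval `[N, 2 N^4]`, `t = 1`. -/
theorem minus_one {A : ℤ} (hm : ∃ m, be A 1 m = -1) :
    ∃ N₀ : ℤ, ∀ N, N₀ ≤ N → ∃ v, N ≤ v ∧ v ≤ 2 * N ^ 4 ∧ be A 1 v = -1 := by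
  obtain ⟨m, hm⟩ := hm
  refine ⟨40 * (|A| + 3) + |m|, fun N hN => ?_⟩
  by_contra hcon
  push Not at hcon
  have hm0 : 0 ≤ |m| := abs_nonneg m
  have hm1 : m ≤ |m| := le_abs_self m
  have hm2 : -|m| ≤ m := neg_abs_le m
  have hA1 : A ≤ |A| := le_abs_self A
  have hA2 : -|A| ≤ A := neg_abs_le A
  have hA0 : 0 ≤ |A| := abs_nonneg A
  have h : ∀ v, N ≤ v → v ≤ 2 * N ^ 4 → be A 1 v = 1 := fun v h1 h2 =>
    (be_or (by norm_num) (F_one_ne A) v).resolve_right (hcon v h1 h2)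
  obtain ⟨hpos, hneg⟩ := annulus (A := A) (t := 1) (D := |A| + 3) (N := N) le_rfl (by norm_num)
    (fun n => ⟨n ^ 2 - (A + 1) * n - 2, by ring⟩) rfl (by omega) h
  set D := |A| + 3 with hD
  have hDN : 0 ≤ D * N := mul_nonneg (by omega) (by omega)
  have hNN : N ≤ N * N := by nlinarith
  have hDD : D ≤ D * D := by nlinarith
  have hZbig : (N + D) ^ 2 + D * (N + D) + D ≤ (N + 2 * D) ^ 2 := by nlinarith
  have hZbig2 : D ^ 2 + D + |m| ≤ (N + 2 * D) ^ 2 - D := by nlinarith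
  rcases le_or_gt (-1) A with hA | hA
  · have hd := descent hA (K := N + D) (Z := (N + 2 * D) ^ 2) (by omega) (by nlinarith)
      (by nlinarith) (fun k h1 h2 => by rw [← be_one]; exact hpos k h1 h2)
      (fun k h1 h2 => by rw [← be_one]; exact hneg k h1 h2) m (by nlinarith) (by nlinarith)
    rw [← be_one, hm] at hd
    norm_num at hd
  · set A' := -3 - A with hA'
    have hr : ∀ n, be A 1 (-1 - n) = be A' 1 n := by
      intro n
      have := be_refl A 1 n
      rwa [show (-3 * 1 - A : ℤ) = A' by rw [hA']; ring] at this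
    have hd := descent (a := A') (by omega) (K := N + D) (Z := (N + 2 * D) ^ 2 - D) (by omega)
      (by nlinarith) (by nlinarith)
      (fun k h1 h2 => by
        rw [← be_one, ← hr, show -1 - (A' + k) = -(k - A - 2) by rw [hA']; ring]
        exact hneg _ (by omega) (by omega))
      (fun k h1 h2 => by
        rw [← be_one, ← hr, show -1 - -k = A + (k - 1 - A) by ring]
        exact hpos _ (by omega) (by omega))
      (-1 - m) (by nlinarith) (by nlinarith)
    rw [← be_one, ← hr, show -1 - (-1 - m) = m by ring, hm] at hd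
    norm_num at hd

/-- The sign `be = -1` in every interval `[N, 2 N^4]`, `t = 2`. -/
theorem minus_two {A : ℤ} (hodd : Odd A) (hA3 : A ≠ -3) :
    ∃ N₀ : ℤ, ∀ N, N₀ ≤ N → ∃ v, N ≤ v ∧ v ≤ 2 * N ^ 4 ∧ be A 2 v = -1 := by
  refine ⟨40 * (|A| + 3), fun N hN => ?_⟩
  by_contra hcon
  push Not at hcon
  have hA1 : A ≤ |A| := le_abs_self A
  have hA2 : -|A| ≤ A := neg_abs_le A
  have hA0 : 0 ≤ |A| := abs_nonneg A
  have h : ∀ v, N ≤ v → v ≤ 2 * N ^ 4 → be A 2 v = 1 := fun v h1 h2 =>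
    (be_or (by norm_num) (F_two_ne hodd hA3) v).resolve_right (hcon v h1 h2)
  obtain ⟨hpos, hneg⟩ := annulus (A := A) (t := 2) (D := |A| + 3) (N := N) (by norm_num) le_rfl
    (adm_two hodd) rfl (by omega) h
  set D := |A| + 3 with hD
  have hDN : 0 ≤ D * N := mul_nonneg (by omega) (by omega)
  have hNN : N ≤ N * N := by nlinarith
  have hDD : D ≤ D * D := by nlinarith
  have hZbig : (N + D) ^ 2 + D * (N + D) + D ≤ (N + 2 * D) ^ 2 := by nlinarith
  have hZbig2 : D ^ 2 + D + 6 ≤ (N + 2 * D) ^ 2 - D := by nlinarith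
  rcases le_or_gt (-1) A with hA | hA
  · exact false2' hodd hA (Z := (N + 2 * D) ^ 2) (by nlinarith)
      (descent2 hodd hA (K := N + D) (by omega) (by nlinarith) hpos hneg)
  · set A' := -6 - A with hA'
    obtain ⟨b, hb⟩ := id hodd
    have hr : ∀ n, be A 2 (-2 - n) = be A' 2 n := by
      intro n
      have := be_refl A 2 n
      rwa [show (-3 * 2 - A : ℤ) = A' by rw [hA']; ring] at this
    have hodd' : Odd A' := ⟨-4 - b, by rw [hA', hb]; ring⟩
    refine false2' hodd' (by omega) (Z := (N + 2 * D) ^ 2 - D) (by nlinarith)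
      (descent2 hodd' (by omega) (K := N + D) (by omega) (by nlinarith) ?_ ?_)
    · intro k h1 h2
      rw [← hr, show -2 - (A' + k) = -(k - A - 4) by rw [hA']; ring]
      exact hneg _ (by omega) (by omega)
    · intro k h1 h2
      rw [← hr, show -2 - -k = A + (k - 2 - A) by ring]
      exact hpos _ (by omega) (by omega)

theorem both_of {A t : ℤ} (ht : 1 ≤ t) (hF : ∀ n, F A t n ≠ 0)
    (hminus : ∃ N₀ : ℤ, ∀ N, N₀ ≤ N → ∃ v, N ≤ v ∧ v ≤ 2 * N ^ 4 ∧ be A t v = -1) :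
    ∃ N₀ : ℕ, ∀ N : ℕ, N₀ ≤ N → ∀ s : ℤ, s = 1 ∨ s = -1 →
      ∃ n : ℕ, N ≤ n ∧ n ≤ 2 * N ^ 4 ∧ liouville ((cubic A t).eval (n : ℤ)) = s := by
  obtain ⟨N₁, hN₁⟩ := hminus
  refine ⟨N₁.toNat + (40 * (|A| + t ^ 2 + t)).toNat, fun N hN s hs => ?_⟩
  have hs2 : ∃ v : ℤ, (N : ℤ) ≤ v ∧ v ≤ 2 * (N : ℤ) ^ 4 ∧ liouville (F A t v) = s := by
    have ht0 : t ≠ 0 := by omega
    have hsq := liouville_sq ht0
    have hbe : ∀ v, liouville (F A t v) = liouville t * be A t v := by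
      intro v
      unfold be
      rw [← mul_assoc, hsq, one_mul]
    obtain ⟨v, hv1, hv2, hv3⟩ := plus_exists ht hF (N := N) (by omega)
    obtain ⟨w, hw1, hw2, hw3⟩ := hN₁ N (by omega)
    rcases liouville_ne ht0 with h | h
    · rcases hs with rfl | rfl
      · exact ⟨v, hv1, hv2, by rw [hbe, hv3, h, mul_one]⟩
      · exact ⟨w, hw1, hw2, by rw [hbe, hw3, h, one_mul]⟩
    · rcases hs with rfl | rfl
      · exact ⟨w, hw1, hw2, by rw [hbe, hw3, h]; norm_num⟩
      · exact ⟨v, hv1, hv2, by rw [hbe, hv3, h, mul_one]⟩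
  obtain ⟨v, hv1, hv2, hv3⟩ := hs2
  obtain ⟨n, rfl⟩ := Int.eq_ofNat_of_zero_le (by omega : 0 ≤ v)
  exact ⟨n, by exact_mod_cast hv1, by exact_mod_cast hv2, by rw [cubic_eval]; exact hv3⟩

end Pool.Agent.Lib_helper11.Cubic
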