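import Pool.Agent.Lib_helper11.Cubic.Core

set_option autoImplicit false

/-! The two-parameter family `F A t n = n^3 - A n^2 - (A t + 3 t^2) n - t^3`. -/

namespace Pool.Agent.Lib_helper11.Cubic

theorem liouville_sq {t : ℤ} (ht : t ≠ 0) : liouville t * liouville t = 1 := by
  rcases liouville_ne ht with h | h <;> rw [h] <;> norm_num

theorem liouville_pow_three {t : ℤ} (ht : t ≠ 0) : liouville (t ^ 3) = liouville t := by
  rw [pow_succ, pow_two, liouville_mul, liouville_mul, liouville_sq ht, one_mul]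

theorem liouville_prime {p : ℕ} (hp : p.Prime) : liouville (p : ℤ) = -1 := by
  unfold liouville
  rw [if_neg (by exact_mod_cast hp.ne_zero), Int.natAbs_natCast,
    ArithmeticFunction.cardFactors_apply_prime hp]
  norm_num

/-- the family of cubics -/
def F (A t n : ℤ) : ℤ := n ^ 3 - A * n ^ 2 - (A * t + 3 * t ^ 2) * n - t ^ 3

/-- the normalised sign -/
def be (A t n : ℤ) : ℤ := liouville t * liouville (F A t n)

theorem be_one (a n : ℤ) : be a 1 n = al a n := by
  unfold be al
  rw [liouville_one, one_mul]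
  congr 1
  unfold F f
  ring

theorem be_or {A t : ℤ} (ht : t ≠ 0) (hF : ∀ n, F A t n ≠ 0) (n : ℤ) :
    be A t n = 1 ∨ be A t n = -1 := by
  unfold be
  rcases liouville_ne ht with h | h <;> rcases liouville_ne (hF n) with h' | h' <;>
    rw [h, h'] <;> norm_num

theorem be_P {A t n p : ℤ} (ht : t ≠ 0) (hp : t * p = n ^ 2 - (A + t) * n - 2 * t ^ 2) :
    be A t p = be A t n * be A t (A + t - n) := by
  have h : t ^ 3 * F A t p = -(F A t n * F A t (A + t - n)) := by
    have h1 : t ^ 3 * F A t p
        = (t * p) ^ 3 - A * t * (t * p) ^ 2 - (A * t + 3 * t ^ 2) * t ^ 2 * (t * p) - t ^ 6 := by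
      unfold F; ring
    rw [h1, hp]; unfold F; ring
  have h2 := congrArg liouville h
  rw [liouville_mul, liouville_pow_three ht, liouville_neg, liouville_mul] at h2
  have h3 := liouville_sq ht
  unfold be
  rw [h2]
  linear_combination (-(liouville (F A t n) * liouville (F A t (A + t - n)))) * h3

theorem be_Q {A t n q : ℤ} (ht : t ≠ 0) (hq : t * q = -n ^ 2 + A * n + A * t + 2 * t ^ 2) :
    be A t q = be A t n * be A t (A - n) := by
  have h : t ^ 3 * F A t q = F A t n * F A t (A - n) := by
    have h1 : t ^ 3 * F A t q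
        = (t * q) ^ 3 - A * t * (t * q) ^ 2 - (A * t + 3 * t ^ 2) * t ^ 2 * (t * q) - t ^ 6 := by
      unfold F; ring
    rw [h1, hq]; unfold F; ring
  have h2 := congrArg liouville h
  rw [liouville_mul, liouville_pow_three ht, liouville_mul] at h2
  have h3 := liouville_sq ht
  unfold be
  rw [h2]
  linear_combination (-(liouville (F A t n) * liouville (F A t (A - n)))) * h3

/-- reflection -/
theorem be_refl (A t n : ℤ) : be A t (-t - n) = be (-3 * t - A) t n := by
  unfold be
  congr 1
  rw [← liouville_neg]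
  congr 1
  unfold F
  ring

/-- The five numbers attached to `j`: one of them has sign `1`. -/
theorem five {A t : ℤ} (ht : t ≠ 0) (hF : ∀ n, F A t n ≠ 0) (n p₁ m p₂ q : ℤ)
    (hp₁ : t * p₁ = (n + t) ^ 2 - (A + t) * (n + t) - 2 * t ^ 2)
    (hq : t * q = -n ^ 2 + A * n + A * t + 2 * t ^ 2)
    (hm : m = A + t - q)
    (hp₂ : t * p₂ = m ^ 2 - (A + t) * m - 2 * t ^ 2) :
    be A t n = 1 ∨ be A t (n + t) = 1 ∨ be A t p₁ = 1 ∨ be A t m = 1 ∨ be A t p₂ = 1 := by
  by_contra hcon
  push Not at hcon
  obtain ⟨h1, h2, h3, h4, h5⟩ := hcon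
  have e1 := (be_or ht hF n).resolve_left h1
  have e2 := (be_or ht hF (n + t)).resolve_left h2
  have e3 := (be_or ht hF p₁).resolve_left h3
  have e4 := (be_or ht hF m).resolve_left h4
  have e5 := (be_or ht hF p₂).resolve_left h5
  have i1 := be_P ht hp₁
  have i2 := be_Q ht hq
  have i3 := be_P ht hp₂
  have r1 : A + t - (n + t) = A - n := by ring
  have r2 : A + t - m = q := by rw [hm]; ring
  rw [r1, e2, e3] at i1
  rw [e1] at i2
  rw [r2, e4, e5] at i3
  have : be A t (A - n) = 1 := by linarith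
  rw [this] at i2
  rw [i2] at i3
  norm_num at i3

end Pool.Agent.Lib_helper11.Cubic
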